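import Pool.Agent.H78.KP.Stmts
import Pool.Agent.H2.KG.IMP

/-!
# Project KP, module NEX: near extremal functions with small second derivatives
-/

set_option autoImplicit false
set_option linter.unusedSectionVars false

open MeasureTheory Set Filter Topology
open scoped ContDiff

namespace Pool.Agent.H78.KP

open Pool.Agent.H84 Pool.Agent.H84.Sym Pool.Agent.H84.Sym.P2x Pool.Agent.H84.Sym.C29
open Pool.Agent.H84.Sym.S29 Pool.Agent.H19.KL Pool.Agent.H73.KG Pool.Agent.H20.KH

theorem nex_thm (E : Type) [NormedAddCommGroup E] [InnerProductSpace ℝ E]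
    [FiniteDimensional ℝ E] [MeasurableSpace E] [BorelSpace E] : NEXStmt E := by
  rintro U t g ⟨⟨C, hU⟩, hp⟩ hg hn ι _ b
  have ht := hU.pos
  have hU1 : ContDiff ℝ 1 U := hU.smooth.of_le (by norm_num)
  -- a function with small `L²` norm of `L u`
  have hex : ∃ u : E → ℝ, Tst u ∧
      ∫ x, (LO b U u x) ^ 2 ∂(mu U) < 1 / g * ∫ x, ‖fderiv ℝ u x‖ ^ 2 ∂(mu U) := by
    by_contra hcon
    push Not at hcon
    apply hn
    have h := gpc_of_coer b hU (k := 1 / g) (by positivity) hcon
    rwa [one_div_one_div] at h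
  obtain ⟨u, hu, hlt⟩ := hex
  have hu1 : ContDiff ℝ 1 u := hu.1.of_le (by exact_mod_cast (le_top : (1 : ℕ∞) ≤ ⊤))
  have hJ0 : 0 ≤ ∫ x, (LO b U u x) ^ 2 ∂(mu U) := integral_nonneg fun x => sq_nonneg _
  have hY0 : 0 < Y1 U u := by
    have h1 : 0 < 1 / g * Y1 U u := lt_of_le_of_lt hJ0 hlt
    exact (mul_pos_iff_of_pos_left (by positivity)).1 h1
  refine ⟨u, hu, hY0, ?_, ?_⟩
  · -- Cauchy-Schwarz
    have hL : GC (LO b U u) := GC.of_BC (LO_BC b hU1 hu)
    have hGu : GC u := GC.of_BC (tst_BC hu)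
    have g1 := green b (f := u) hU1 (by simpa using contDiff_infty.mp hu.1 2) hu1 (Or.inl hu.2)
    have g0 := green b (f := fun _ => (1:ℝ)) hU1 (by simpa using contDiff_infty.mp hu.1 2)
      contDiff_const (Or.inl hu.2)
    have e0 : ∫ x, LO b U u x ∂(mu U) = 0 := by
      have h1 : ∀ x, (∑ i, D (b i) u x * D (b i) (fun _ : E => (1:ℝ)) x) = 0 := by
        intro x
        refine Finset.sum_eq_zero fun i _ => ?_
        simp [D]
      simp only [h1, mul_one, integral_zero, neg_zero] at g0
      exact g0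
    have e1 : ∫ x, LO b U u x * u x ∂(mu U) = -Y1 U u := by
      rw [g1]
      unfold Y1
      congr 1
      refine integral_congr_ae (Eventually.of_forall fun x => ?_)
      simp only [norm_fderiv_sq b u, pow_two]
    have c1 : cv U (LO b U u) u = -Y1 U u := by
      unfold Pool.Agent.H73.KG.cv
      rw [e1, e0]
      ring
    have c2 : cv U (LO b U u) (LO b U u) = ∫ x, (LO b U u x) ^ 2 ∂(mu U) := by
      unfold Pool.Agent.H73.KG.cv
      rw [e0]
      simp only [← pow_two]
      ring
    have hcs := BAS_cs hU hp hL hGu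
    rw [c1, c2] at hcs
    have hc0 : 0 < cv U u u := by
      by_contra hneg
      push Not at hneg
      have h2 := mul_nonpos_of_nonneg_of_nonpos hJ0 hneg
      nlinarith
    have h3 : (Y1 U u) ^ 2 < 1 / g * Y1 U u * cv U u u := by
      calc (Y1 U u) ^ 2 = (-Y1 U u) ^ 2 := by ring
        _ ≤ _ := hcs
        _ < _ := mul_lt_mul_of_pos_right hlt hc0
    have h4 : g * (Y1 U u) ^ 2 < Y1 U u * cv U u u := by
      have := mul_lt_mul_of_pos_left h3 hg
      calc g * (Y1 U u) ^ 2 < g * (1 / g * Y1 U u * cv U u u) := this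
        _ = _ := by field_simp
    nlinarith
  · have hbo := bochner b (q := fun _ => t) hU.smooth continuous_const (fun x v => hU.hess x v)
      (by simpa using contDiff_infty.mp hu.1 3) hu.2
    rw [integral_const_mul] at hbo
    have hZ : (∫ x, (∑ i, ‖fderiv ℝ (D (b i) u) x‖ ^ 2) ∂(mu U)) = Z1 b U u := by
      unfold Z1 hq
      simp only [norm_fderiv_sq b]
    rw [hZ] at hbo
    have h5 : Z1 b U u < 1 / g * Y1 U u := by
      have h6 : 0 < t * Y1 U u := mul_pos ht hY0
      change Z1 b U u + t * Y1 U u ≤ _ at hbo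
      exact lt_of_le_of_lt (by linarith) hlt
    have := mul_lt_mul_of_pos_left h5 hg
    calc g * Z1 b U u < g * (1 / g * Y1 U u) := this
      _ = _ := by field_simp

end Pool.Agent.H78.KP
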